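import Pool.Agent.helper20.HP.Defs3
import Pool.Agent.helper20.HP.S0

/-!
Module P2 of project MP_5ae64c_pr: two times of Cs give the exchange event.
-/

open scoped BigOperators Topology
open Filter MeasureTheory

namespace Pool.Agent.helper20.HP

theorem P2_mem {α : Type} {l : List α} {a k : ℕ} {y : α} :
    y ∈ (l.drop a).take k ↔ ∃ j, a ≤ j ∧ j < a + k ∧ ∃ h : j < l.length, l[j] = y := by
  constructor
  · intro hy
    obtain ⟨i, hi, rfl⟩ := List.mem_iff_getElem.mp hy
    simp only [List.length_take, List.length_drop, lt_min_iff] at hi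
    refine ⟨a + i, by omega, by omega, by omega, ?_⟩
    simp [List.getElem_take, List.getElem_drop]
  · rintro ⟨j, h1, h2, h3, rfl⟩
    rw [List.mem_iff_getElem]
    refine ⟨j - a, ?_, ?_⟩
    · simp only [List.length_take, List.length_drop, lt_min_iff]; omega
    · simp only [List.getElem_take, List.getElem_drop]
      congr 1; omega

section
variable {V : Type} [Fintype V] [DecidableEq V] {K : HW V}

theorem P2_vp_take (o : V) (L : List (Aut K)) : ∀ (ψ : Aut K) (i : ℕ),
    vp o ψ (L.take i) = (vp o ψ L).take i := by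
  induction L with
  | nil => intro ψ i; simp [vp]
  | cons g L ih =>
    intro ψ i
    cases i with
    | zero => simp [vp]
    | succ i => simp [vp, ih]

theorem P2_vp_drop (o : V) (L : List (Aut K)) : ∀ (ψ : Aut K) (i : ℕ),
    vp o (ψ * (L.take i).prod) (L.drop i) = (vp o ψ L).drop i := by
  induction L with
  | nil => intro ψ i; simp [vp]
  | cons g L ih =>
    intro ψ i
    cases i with
    | zero => simp
    | succ i =>
      simp only [List.take_succ_cons, List.drop_succ_cons, List.prod_cons, vp]
      rw [← mul_assoc, ih]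

/-- the path of the word `Y` -/
def P2_X (o : V) (Y : List (Aut K)) : List V := o :: vp o 1 Y

theorem P2_X_length (o : V) (Y : List (Aut K)) : (P2_X o Y).length = Y.length + 1 := by
  simp [P2_X, vp_length]

theorem P2_X_take (o : V) (Y : List (Aut K)) (i : ℕ) :
    o :: vp o 1 (Y.take i) = (P2_X o Y).take (i + 1) := by
  simp [P2_X, P2_vp_take]

/-- pieces of the path seen from the frame `(Y.take i).prod` -/
theorem P2_X_drop (o : V) (Y : List (Aut K)) (i k : ℕ) :
    vp o (Y.take i).prod ((Y.drop i).take k) = ((P2_X o Y).drop (i + 1)).take k := by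
  have := P2_vp_drop o Y 1 i
  rw [one_mul] at this
  rw [P2_vp_take, this]
  simp [P2_X]

theorem P2_X_get (o : V) : ∀ (Y : List (Aut K)) (i : ℕ) (hi : i < (P2_X o Y).length),
    (P2_X o Y)[i] = (Y.take i).prod.1 o := by
  intro Y i hi
  have hi' : i ≤ Y.length := by rw [P2_X_length] at hi; omega
  have h1 : (P2_X o Y)[i] = lst o (vp o 1 (Y.take i)) := by
    rw [P2_vp_take]
    unfold lst
    rw [List.getLastD_eq_getLast?, List.getLast?_eq_getElem?]
    simp only [List.length_take, vp_length, Nat.min_eq_left hi']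
    cases i with
    | zero => simp [P2_X]
    | succ i =>
      have hl : i < (vp o 1 Y).length := by rw [vp_length]; omega
      simp [P2_X, List.getElem?_eq_getElem hl]
  have h2 := vp_lst K o (1 : Aut K) (Y.take i)
  rw [one_mul] at h2
  rw [h1]; exact h2

theorem P2_X_dropcons (o : V) (Y : List (Aut K)) (i k : ℕ) (hi : i ≤ Y.length) :
    (Y.take i).prod.1 o :: vp o (Y.take i).prod ((Y.drop i).take k)
      = ((P2_X o Y).drop i).take (k + 1) := by
  rw [P2_X_drop]
  have hi2 : i < (P2_X o Y).length := by rw [P2_X_length]; omega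
  rw [List.drop_eq_getElem_cons hi2, List.take_succ_cons, P2_X_get]

theorem P2_map_mem (φ : Aut K) {l : List V} {y : V} : φ.1 y ∈ l.map φ.1 ↔ y ∈ l := by
  constructor
  · intro h
    obtain ⟨z, hz, e⟩ := List.mem_map.mp h
    rwa [← φ.1.injective e]
  · exact fun h => List.mem_map_of_mem h

/-- transfer of an avoidance statement through an automorphism -/
theorem P2_transfer (φ : Aut K) {l l' : List V}
    (h : ∀ y ∈ l.map φ.1, y ∉ l'.map φ.1) : ∀ y ∈ l, y ∉ l' := by
  intro y hy hy'
  exact h (φ.1 y) ((P2_map_mem φ).mpr hy) ((P2_map_mem φ).mpr hy')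

theorem P2_take_prod (Y : List (Aut K)) (i k : ℕ) :
    (Y.take i).prod * ((Y.drop i).take k).prod = (Y.take (i + k)).prod := by
  rw [← List.prod_append, ← List.take_add]

theorem P2_NoRet_map (φ : Aut K) (b : ℕ) (l : List V) (h : NoRet b (l.map φ.1)) : NoRet b l := by
  intro i j hi hj hij e
  have := h i j (by simpa using hi) (by simpa using hj) hij
  exact this (by simp [e])

omit [Fintype V] [DecidableEq V] in
theorem P2_NoRet_sub (b : ℕ) (l : List V) (a k : ℕ) (h : NoRet b l) :
    NoRet b ((l.drop a).take k) := by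
  intro i j hi hj hij e
  simp only [List.length_take, List.length_drop, lt_min_iff] at hi hj
  simp only [List.getElem_take, List.getElem_drop] at e
  exact h (a + i) (a + j) (by omega) (by omega) (by omega) e

omit [Fintype V] in
/-- a nonempty word avoiding its starting point has positive loop erased length -/
theorem P2_lel_pos (o : V) (l : List V) (hl : l ≠ []) (ho : o ∉ l) : 1 ≤ lel o l := by
  obtain ⟨τ, hτ⟩ := run_head o [] l
  have hs : [o] <:+ run [o] l := suffix_run (List.suffix_refl [o]) (fun y hy h => by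
    rw [List.mem_singleton] at h; exact ho (h ▸ hy))
  have hne : τ ≠ [] := by
    intro h
    rw [hτ, h] at hs
    have h2 : [o] = [lst o l] := hs.eq_of_length (by simp)
    have h3 : o = lst o l := by simpa using h2
    have h4 : lst o l ∈ l := by
      unfold lst
      rw [List.getLastD_eq_getLast?, List.getLast?_eq_some_getLast hl]
      exact List.getLast_mem hl
    exact ho (h3 ▸ h4)
  have h5 := run_single_length o l
  rw [hτ] at h5
  have : 1 ≤ τ.length := List.length_pos_iff.mpr hne
  simp only [List.length_cons] at h5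
  omega

/-- a word avoiding everything before it adds its loop erased length -/
theorem P2_lel_add (o : V) (C R : List (Aut K))
    (h : ∀ y ∈ vp o C.prod R, y ∉ o :: vp o 1 C) :
    lel o (vp o 1 (C ++ R)) = lel o (vp o 1 C) + lel o (vp o 1 R) := by
  rw [vp_append, one_mul]
  obtain ⟨τ, hτ⟩ := run_head o [] (vp o 1 C)
  have hl : lst o (vp o 1 C) = C.prod.1 o := by
    have := vp_lst K o (1 : Aut K) C
    rw [one_mul] at this
    exact this
  have h1 := run_single_length o (vp o 1 C)
  have h2 := run_single_length o (vp o 1 C ++ vp o C.prod R)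
  rw [run_append, hτ, hl, run_avoid_length] at h2
  · rw [hτ] at h1
    simp only [List.length_cons] at h1
    have h3 : lel (C.prod.1 o) (vp o C.prod R) = lel o (vp o 1 R) := by
      have := vp_mul K o C.prod 1 R
      rw [mul_one] at this
      rw [this, lel_map]
    omega
  · intro y hy hyτ
    refine h y hy ?_
    have : y ∈ run [o] (vp o 1 C) := by rw [hτ]; exact List.mem_cons_of_mem _ hyτ
    rcases mem_run this with h | h
    · rw [List.mem_singleton] at h; simp [h]
    · exact List.mem_cons_of_mem _ h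

omit [Fintype V] [DecidableEq V] in
theorem P2_rtake (l : List V) (k : ℕ) : l.rtake k = l.drop (l.length - k) := rfl

theorem P2_Cs1 (o : V) (b s : ℕ) (Y F : List (Aut K)) (hs : b + s ≤ Y.length)
    (hC : Cs K o b s Y F) (i j : ℕ) (hi : s ≤ i) (hi' : i ≤ b + s) (hj : b + s < j)
    (hj' : j ≤ b + s + b) (hjl : j < (P2_X o Y).length) :
    (P2_X o Y)[i]'(by omega) ≠ (P2_X o Y)[j] := by
  intro e
  have h1 := hC.1
  rw [P2_X_drop, P2_X_take, P2_rtake] at h1
  refine h1 ((P2_X o Y)[j]) (P2_mem.mpr ⟨j, by omega, by omega, hjl, rfl⟩) ?_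
  rw [← e]
  have hl : ((P2_X o Y).take (b + s + 1)).length = b + s + 1 := by
    rw [List.length_take, P2_X_length]; omega
  rw [hl]
  have h2 : b + s + 1 - (b + 1) = s := by omega
  rw [h2, List.drop_take]
  exact P2_mem.mpr ⟨i, hi, by omega, by omega, rfl⟩

theorem P2_Cs2 (o : V) (b s : ℕ) (Y F : List (Aut K)) (hs : b + s ≤ Y.length)
    (hC : Cs K o b s Y F) (i : ℕ) (hi : s ≤ i) (hi' : i ≤ b + s) (hil : i < (P2_X o Y).length) :
    (P2_X o Y)[i] ∉ vp o (Y.take (b + s)).prod F := by
  intro e
  have h1 := hC.2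
  rw [P2_X_take, P2_rtake] at h1
  refine h1 _ e ?_
  have hl : ((P2_X o Y).take (b + s + 1)).length = b + s + 1 := by
    rw [List.length_take, P2_X_length]; omega
  rw [hl]
  have h2 : b + s + 1 - (b + 1) = s := by omega
  rw [h2, List.drop_take]
  exact P2_mem.mpr ⟨i, hi, by omega, by omega, rfl⟩

theorem P2_Hs (o : V) (b s : ℕ) (Y F : List (Aut K)) (hs : b + s ≤ Y.length)
    (hH : Hs K o b s Y F) (i : ℕ) (hi' : i < s) (hil : i < (P2_X o Y).length) :
    (P2_X o Y)[i] ∉ vp o (Y.take (b + s)).prod F := by
  intro e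
  have h1 := hH
  unfold Hs at h1
  rw [P2_X_take] at h1
  refine h1 _ e ?_
  have hl : ((P2_X o Y).take (b + s + 1)).length = b + s + 1 := by
    rw [List.length_take, P2_X_length]; omega
  have h3 : ((P2_X o Y).take (b + s + 1)).rdrop (b + 1) = (P2_X o Y).take s := by
    unfold List.rdrop
    rw [hl, List.take_take]
    congr 1; omega
  rw [h3]
  have : (P2_X o Y).take s = ((P2_X o Y).drop 0).take s := by simp
  rw [this]
  exact P2_mem.mpr ⟨i, by omega, by omega, hil, rfl⟩

/-- P2 -/
theorem Ev_of_pair (o : V) (b B0 : ℕ) (hb : 1 ≤ b) (Y F : List (Aut K)) (hY : Y.length = b + B0 + b)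
    (hF : F.length = b) (hN : NoRet b (o :: vp o 1 (Y.take (b + B0)))) (s s' : ℕ) (hs : s < s')
    (hs' : s' ≤ B0) (hC : Cs K o b s Y F) (hC' : Cs K o b s' Y F) (hH : Hs K o b s' Y F) :
    Ev K o b (lel o (vp o 1 ((Y.drop (b + s)).take (s' - s)))) ((Y.drop s).take b)
        ((Y.drop (b + s)).take (s' - s)) F ∧
      lam K o b s' Y = lam K o b s Y + lel o (vp o 1 ((Y.drop (b + s)).take (s' - s))) ∧
      1 ≤ lel o (vp o 1 ((Y.drop (b + s)).take (s' - s))) := by
  have hXl : (P2_X o Y).length = b + B0 + b + 1 := by rw [P2_X_length, hY]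
  -- basic avoidance
  have hAV : ∀ (i j : ℕ) (hi : i ≤ b + s) (hj : b + s < j) (hj' : j ≤ b + s'),
      (P2_X o Y)[i]'(by omega) ≠ (P2_X o Y)[j]'(by omega) := by
    intro i j hi hj hj'
    by_cases h : i + b ≤ j
    · have hN' := hN
      rw [P2_X_take] at hN'
      have := hN' i j (by rw [List.length_take]; omega) (by rw [List.length_take]; omega) h
      simpa [List.getElem_take] using this
    · exact P2_Cs1 o b s Y F (by omega) hC i j (by omega) hi hj (by omega) (by omega)
  set B := (Y.drop s).take b with hB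
  set R := (Y.drop (b + s)).take (s' - s) with hR
  have eB : (Y.take s).prod * B.prod = (Y.take (b + s)).prod := by
    rw [hB, P2_take_prod, Nat.add_comm s b]
  have eR : (Y.take (b + s)).prod * R.prod = (Y.take (b + s')).prod := by
    rw [hR, P2_take_prod]; congr 2; omega
  -- images under the frame at s
  have i1 : (o :: vp o 1 B).map (Y.take s).prod.1 = ((P2_X o Y).drop s).take (b + 1) := by
    rw [← P2_X_dropcons o Y s b (by omega), List.map_cons, ← vp_mul, mul_one]
  have i2 : (vp o B.prod R).map (Y.take s).prod.1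
      = ((P2_X o Y).drop (b + s + 1)).take (s' - s) := by
    rw [← vp_mul, eB, hR, P2_X_drop]
  have i3 : (vp o (B.prod * R.prod) F).map (Y.take s).prod.1 = vp o (Y.take (b + s')).prod F := by
    rw [← vp_mul, ← mul_assoc, eB, eR]
  have i4 : (vp o B.prod F).map (Y.take s).prod.1 = vp o (Y.take (b + s)).prod F := by
    rw [← vp_mul, eB]
  have eBR : B ++ R = (Y.drop s).take (b + (s' - s)) := by
    rw [hB, hR, List.take_add, List.drop_drop, Nat.add_comm s b]
  have i5 : (o :: vp o 1 (B ++ R)).map (Y.take s).prod.1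
      = ((P2_X o Y).drop s).take (b + (s' - s) + 1) := by
    rw [← P2_X_dropcons o Y s (b + (s' - s)) (by omega), List.map_cons, ← vp_mul, mul_one, eBR]
  have hEv : Ev K o b (lel o (vp o 1 R)) B R F := by
    refine ⟨rfl, ?_, ?_, ?_, ?_⟩
    · refine P2_transfer (Y.take s).prod ?_
      rw [i1, i2]
      intro y hy hy'
      obtain ⟨j, hj1, hj2, hj3, rfl⟩ := P2_mem.mp hy
      obtain ⟨i, hi1, hi2, hi3, e⟩ := P2_mem.mp hy'
      exact hAV i j (by omega) (by omega) (by omega) e
    · refine P2_transfer (Y.take s).prod ?_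
      rw [i3, i5]
      intro y hy hy'
      obtain ⟨i, hi1, hi2, hi3, rfl⟩ := P2_mem.mp hy'
      by_cases h : i < s'
      · exact P2_Hs o b s' Y F (by omega) hH i h hi3 hy
      · exact P2_Cs2 o b s' Y F (by omega) hC' i (by omega) (by omega) hi3 hy
    · refine P2_transfer (Y.take s).prod ?_
      rw [i4, i1]
      intro y hy hy'
      obtain ⟨i, hi1, hi2, hi3, rfl⟩ := P2_mem.mp hy'
      exact P2_Cs2 o b s Y F (by omega) hC i (by omega) (by omega) hi3 hy
    · refine P2_NoRet_map (Y.take s).prod b _ ?_
      rw [i5]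
      rw [P2_X_take] at hN
      have h1 := P2_NoRet_sub b _ s (b + (s' - s) + 1) hN
      have h2 : (((P2_X o Y).take (b + B0 + 1)).drop s).take (b + (s' - s) + 1)
          = ((P2_X o Y).drop s).take (b + (s' - s) + 1) := by
        rw [List.drop_take, List.take_take]
        congr 1; omega
      rwa [h2] at h1
  refine ⟨hEv, ?_, ?_⟩
  · -- levels
    unfold lam
    have e1 : (Y.drop b).take s' = (Y.drop b).take s ++ R := by
      have : s' = s + (s' - s) := by omega
      rw [this, List.take_add, List.drop_drop, hR]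
    rw [e1, P2_lel_add]
    refine P2_transfer (Y.take b).prod ?_
    have j1 : (o :: vp o 1 ((Y.drop b).take s)).map (Y.take b).prod.1
        = ((P2_X o Y).drop b).take (s + 1) := by
      rw [← P2_X_dropcons o Y b s (by omega), List.map_cons, ← vp_mul, mul_one]
    have j2 : (vp o ((Y.drop b).take s).prod R).map (Y.take b).prod.1
        = ((P2_X o Y).drop (b + s + 1)).take (s' - s) := by
      rw [← vp_mul, P2_take_prod, hR, P2_X_drop]
    rw [j1, j2]
    intro y hy hy'
    obtain ⟨j, hj1, hj2, hj3, rfl⟩ := P2_mem.mp hy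
    obtain ⟨i, hi1, hi2, hi3, e⟩ := P2_mem.mp hy'
    exact hAV i j (by omega) (by omega) (by omega) e
  · refine P2_lel_pos o _ ?_ ?_
    · intro h
      have h1 := congrArg List.length h
      rw [vp_length] at h1
      have h2 : R.length = s' - s := by
        rw [hR, List.length_take, List.length_drop]; omega
      simp only [List.length_nil] at h1
      omega
    · intro h
      have h1 : (Y.take (b + s)).prod.1 o ∈ (vp o 1 R).map (Y.take (b + s)).prod.1 :=
        List.mem_map_of_mem h
      rw [← vp_mul, mul_one, hR, P2_X_drop] at h1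
      obtain ⟨j, hj1, hj2, hj3, e⟩ := P2_mem.mp h1
      rw [← P2_X_get o Y (b + s) (by omega)] at e
      exact hAV (b + s) j le_rfl (by omega) (by omega) e.symm

end

end Pool.Agent.helper20.HP
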