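import Pool.Agent.helper20.HP.Defs3
import Pool.Agent.helper20.HP.S1
import Pool.Agent.helper92.HP.P2

/-!
Module P3 of project MP_5ae64c_pr: expectations.
-/

open scoped BigOperators Topology
open Filter MeasureTheory

namespace Pool.Agent.helper20.HP

section
variable {V : Type} [Fintype V] [DecidableEq V] {K : HW V} {θ : ℝ} {h : ℕ}

theorem P3_slice (K : HW V) (o : V) (N i k : ℕ) (hik : i + k ≤ N) (f : List (Aut K) → ℝ) :
    EL K o N (fun Y => f ((Y.drop i).take k)) = EL K o k f := by
  obtain ⟨r, rfl⟩ : ∃ r, N = i + (k + r) := ⟨N - (i + k), by omega⟩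
  rw [EL_split]
  have h1 : EL K o i (fun L => EL K o (k + r) (fun L' => f (((L ++ L').drop i).take k)))
      = EL K o i (fun _ => EL K o (k + r) (fun L' => f (L'.take k))) := by
    refine EL_congr K o i fun L hL => ?_
    have : ∀ L' : List (Aut K), (L ++ L').drop i = L' := fun L' => by
      rw [← hL, List.drop_left]
    simp only [this]
  rw [h1, EL_const, EL_split]
  refine EL_congr K o k fun L hL => ?_
  have : ∀ L' : List (Aut K), (L ++ L').take k = L := fun L' => by
    rw [← hL, List.take_left]
  simp only [this]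
  rw [EL_const]

theorem P3_slice2 (K : HW V) (o : V) (N i k m : ℕ) (hik : i + (k + m) ≤ N)
    (f : List (Aut K) → List (Aut K) → ℝ) :
    EL K o N (fun Y => f ((Y.drop i).take k) ((Y.drop (i + k)).take m))
      = EL K o k (fun R => EL K o m (fun G => f R G)) := by
  have h1 := P3_slice K o N i (k + m) hik (fun Z => f (Z.take k) ((Z.drop k).take m))
  have h2 : ∀ Y : List (Aut K), f (((Y.drop i).take (k + m)).take k)
      ((((Y.drop i).take (k + m)).drop k).take m)
      = f ((Y.drop i).take k) ((Y.drop (i + k)).take m) := by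
    intro Y
    have e1 : ((Y.drop i).take (k + m)).take k = (Y.drop i).take k := by
      rw [List.take_take]; congr 1; omega
    have e2 : (((Y.drop i).take (k + m)).drop k).take m = (Y.drop (i + k)).take m := by
      rw [List.drop_take, List.take_take, List.drop_drop]
      congr 1; omega
    rw [e1, e2]
  simp only [h2] at h1
  rw [h1, EL_split]
  refine EL_congr K o k fun L hL => ?_
  refine EL_congr K o m fun L' hL' => ?_
  have e1 : (L ++ L').take k = L := by rw [← hL, List.take_left]
  have e2 : ((L ++ L').drop k).take m = L' := by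
    rw [← hL, List.drop_left, ← hL', List.take_length]
  rw [e1, e2]

/-- return probability through letters -/
theorem P3_ret (K : HW V) (o : V) (t : ℕ) :
    EL K o t (fun L => ind (L.prod.1 o = o)) = K.pt t o o := by
  rw [← W_ind_lst K t o o]
  have h1 := W_eq_EL K o 1 t (fun l => ind (lst o l = o))
  have h2 : (1 : Aut K).1 o = o := rfl
  rw [h2] at h1
  rw [h1]
  refine EL_congr K o t fun L _ => ?_
  have h3 := vp_lst K o (1 : Aut K) L
  rw [one_mul, h2] at h3
  rw [h3]

theorem P3_transfer_iff (φ : Aut K) {l l' : List V} :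
    (∀ y ∈ l.map φ.1, y ∉ l'.map φ.1) ↔ (∀ y ∈ l, y ∉ l') := by
  constructor
  · exact P2_transfer φ
  · intro h y hy hy'
    obtain ⟨z, hz, rfl⟩ := List.mem_map.mp hy
    exact h z hz ((P2_map_mem φ).mp hy')

/-- the avoidance event at a junction -/
def P3_A (K : HW V) (o : V) (B F : List (Aut K)) : Prop :=
  ∀ y ∈ vp o B.prod F, y ∉ o :: vp o 1 B

theorem P3_Cs_iff (o : V) (b s : ℕ) (Y F : List (Aut K)) (hs : b + s ≤ Y.length) :
    Cs K o b s Y F ↔ P3_A K o ((Y.drop s).take b) ((Y.drop (s + b)).take b) ∧
      P3_A K o ((Y.drop s).take b) F := by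
  have eB : (Y.take s).prod * ((Y.drop s).take b).prod = (Y.take (b + s)).prod := by
    rw [P2_take_prod, Nat.add_comm s b]
  have i1 : (o :: vp o 1 (Y.take (b + s))).rtake (b + 1)
      = (o :: vp o 1 ((Y.drop s).take b)).map (Y.take s).prod.1 := by
    have j1 : (o :: vp o 1 ((Y.drop s).take b)).map (Y.take s).prod.1
        = ((P2_X o Y).drop s).take (b + 1) := by
      rw [← P2_X_dropcons o Y s b (by omega), List.map_cons, ← vp_mul, mul_one]
    rw [j1, P2_X_take, P2_rtake]
    have hl : ((P2_X o Y).take (b + s + 1)).length = b + s + 1 := by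
      rw [List.length_take, P2_X_length]; omega
    rw [hl]
    have h2 : b + s + 1 - (b + 1) = s := by omega
    rw [h2, List.drop_take]
    congr 1; omega
  unfold Cs P3_A
  rw [i1, ← eB, vp_mul, vp_mul, P3_transfer_iff, P3_transfer_iff, Nat.add_comm s b]

/-- P3, first part -/
theorem EL_Cs (hP : Par K θ h) (o : V) (B0 s : ℕ) (hs : s ≤ B0) :
    1 / (4 * θ ^ 2) ≤ EL K o (2 * h + B0 + 2 * h) (fun Y => EL K o (2 * h) (fun F =>
      ind (Cs K o (2 * h) s Y F))) := by
  have hh := hP.h_le
  have hθ := hP.one_le
  set b := 2 * h with hb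
  have h1 : EL K o (b + B0 + b) (fun Y => EL K o b (fun F => ind (Cs K o b s Y F)))
      = EL K o b (fun B => EL K o b (fun R => ind (P3_A K o B R))
          * EL K o b (fun F => ind (P3_A K o B F))) := by
    have e1 : EL K o (b + B0 + b) (fun Y => EL K o b (fun F => ind (Cs K o b s Y F)))
        = EL K o (b + B0 + b) (fun Y => ind (P3_A K o ((Y.drop s).take b) ((Y.drop (s + b)).take b)) *
            EL K o b (fun F => ind (P3_A K o ((Y.drop s).take b) F))) := by
      refine EL_congr K o _ fun Y hY => ?_
      rw [← EL_mul_left]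
      refine EL_congr K o _ fun F _ => ?_
      rw [← ind_and]
      exact ind_congr (P3_Cs_iff o b s Y F (by omega))
    have e2 := P3_slice2 K o (b + B0 + b) s b b (by omega) (fun B R => ind (P3_A K o B R) *
            EL K o b (fun F => ind (P3_A K o B F)))
    rw [e1]
    refine e2.trans ?_
    refine EL_congr K o _ fun B _ => ?_
    rw [EL_mul_right]
  rw [h1]
  have h2 : EL K o b (fun B => EL K o b (fun R => ind (P3_A K o B R))
          * EL K o b (fun F => ind (P3_A K o B F)))
      = W K b o (fun l => W K b (lst o l) (fun l1 => ind (∀ y ∈ l1, y ∉ o :: l)) *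
          W K b (lst o l) (fun l2 => ind (∀ y ∈ l2, y ∉ o :: l))) := by
    have e1 := W_eq_EL K o 1 b (fun l => W K b (lst o l) (fun l1 => ind (∀ y ∈ l1, y ∉ o :: l)) *
          W K b (lst o l) (fun l2 => ind (∀ y ∈ l2, y ∉ o :: l)))
    have e2 : (1 : Aut K).1 o = o := rfl
    rw [e2] at e1
    rw [e1]
    refine EL_congr K o _ fun B _ => ?_
    have e3 := vp_lst K o (1 : Aut K) B
    rw [one_mul, e2] at e3
    rw [e3, W_eq_EL K o B.prod b]
    rfl
  rw [h2]
  refine le_trans ?_ (cut_prob2 b b o)
  have h3 := Rc_lower hP b b o (by omega) (by omega)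
  have h4 : (0 : ℝ) ≤ 1 / (2 * θ) := by positivity
  calc 1 / (4 * θ ^ 2) = (1 / (2 * θ)) ^ 2 := by
        rw [div_pow]; ring
    _ ≤ (Rc K b b o) ^ 2 := by gcongr

/-- P3, union bound over pairs of times -/
theorem EL_NoRet (hP : Par K θ h) (o : V) (B0 : ℕ) :
    EL K o (2 * h + B0 + 2 * h) (fun Y => ind (¬ NoRet (2 * h) (o :: vp o 1 (Y.take (2 * h + B0)))))
      ≤ ((B0 : ℝ) + 2 * h + 1) ^ 2 * (3 / (2 * (Fintype.card V : ℝ))) := by
  have hh := hP.h_pos
  set b := 2 * h with hb
  have h1 : ∀ Y : List (Aut K), Y.length = b + B0 + b →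
      ind (¬ NoRet b (o :: vp o 1 (Y.take (b + B0)))) ≤
        ∑ i ∈ Finset.range (b + B0 + 1), ∑ j ∈ Finset.range (b + B0 + 1),
          (if i + b ≤ j then ind (((Y.drop i).take (j - i)).prod.1 o = o) else 0) := by
    intro Y hY
    by_cases hN : NoRet b (o :: vp o 1 (Y.take (b + B0)))
    · rw [ind_false (by simpa using hN)]
      refine Finset.sum_nonneg fun i _ => Finset.sum_nonneg fun j _ => ?_
      split_ifs
      · exact ind_nonneg _
      · exact le_rfl
    · rw [ind_true hN]
      unfold NoRet at hN
      push Not at hN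
      obtain ⟨i, j, hi, hj, hij, e⟩ := hN
      rw [P2_X_take, List.length_take, P2_X_length] at hi hj
      have e' : ((Y.drop i).take (j - i)).prod.1 o = o := by
        have h1 : (P2_X o Y)[i]'(by rw [P2_X_length]; omega)
            = (P2_X o Y)[j]'(by rw [P2_X_length]; omega) := by
          simp only [P2_X_take] at e
          simpa [List.getElem_take] using e
        rw [P2_X_get, P2_X_get] at h1
        have h2 := P2_take_prod Y i (j - i)
        rw [show i + (j - i) = j by omega] at h2
        rw [← h2] at h1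
        have h3 : (Y.take i).prod.1 o = (Y.take i).prod.1 (((Y.drop i).take (j - i)).prod.1 o) := h1
        exact ((Y.take i).prod.1.injective h3).symm
      have hnn : ∀ i j : ℕ, 0 ≤ (if i + b ≤ j then
          ind (((Y.drop i).take (j - i)).prod.1 o = o) else (0 : ℝ)) := by
        intro i j
        split_ifs
        · exact ind_nonneg _
        · exact le_rfl
      calc (1 : ℝ) = (if i + b ≤ j then ind (((Y.drop i).take (j - i)).prod.1 o = o) else 0) := by
            rw [if_pos hij, ind_true e']
        _ ≤ ∑ j ∈ Finset.range (b + B0 + 1),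
              (if i + b ≤ j then ind (((Y.drop i).take (j - i)).prod.1 o = o) else 0) :=
            Finset.single_le_sum (f := fun j => if i + b ≤ j then
              ind (((Y.drop i).take (j - i)).prod.1 o = o) else (0 : ℝ))
              (fun j _ => hnn i j) (Finset.mem_range.mpr (by omega))
        _ ≤ _ := Finset.single_le_sum (f := fun i => ∑ j ∈ Finset.range (b + B0 + 1),
              (if i + b ≤ j then ind (((Y.drop i).take (j - i)).prod.1 o = o) else (0 : ℝ)))
              (fun i _ => Finset.sum_nonneg fun j _ => hnn i j) (Finset.mem_range.mpr (by omega))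
  refine (EL_mono K o _ h1).trans ?_
  rw [EL_sum]
  have h2 : ∀ i ∈ Finset.range (b + B0 + 1), EL K o (b + B0 + b) (fun Y =>
      ∑ j ∈ Finset.range (b + B0 + 1),
        (if i + b ≤ j then ind (((Y.drop i).take (j - i)).prod.1 o = o) else 0))
      ≤ ((b + B0 + 1 : ℕ) : ℝ) * (3 / (2 * (Fintype.card V : ℝ))) := by
    intro i _
    rw [EL_sum]
    have h3 : ∀ j ∈ Finset.range (b + B0 + 1), EL K o (b + B0 + b) (fun Y =>
        (if i + b ≤ j then ind (((Y.drop i).take (j - i)).prod.1 o = o) else 0))
        ≤ 3 / (2 * (Fintype.card V : ℝ)) := by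
      intro j hj
      rw [Finset.mem_range] at hj
      by_cases hij : i + b ≤ j
      · simp only [if_pos hij]
        rw [P3_slice K o _ i (j - i) (by omega) (fun L => ind (L.prod.1 o = o)), P3_ret]
        exact hP.mix _ (by omega) o o
      · simp only [if_neg hij]
        rw [EL_const]; positivity
    refine (Finset.sum_le_sum h3).trans (le_of_eq ?_)
    rw [Finset.sum_const, Finset.card_range, nsmul_eq_mul]
  refine (Finset.sum_le_sum h2).trans (le_of_eq ?_)
  rw [Finset.sum_const, Finset.card_range, nsmul_eq_mul]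
  have : ((b + B0 + 1 : ℕ) : ℝ) = (B0 : ℝ) + 2 * h + 1 := by rw [hb]; push_cast; ring
  rw [this]; ring

/-- P3, hits of the old part -/
theorem EL_Hs (hP : Par K θ h) (o : V) (B0 s : ℕ) (hs : s ≤ B0) :
    EL K o (2 * h + B0 + 2 * h) (fun Y => EL K o (2 * h) (fun F => ind (¬ Hs K o (2 * h) s Y F)))
      ≤ ((B0 : ℝ) * (2 * h)) * (3 / (2 * (Fintype.card V : ℝ))) := by
  have hh := hP.h_pos
  set b := 2 * h with hb
  have h1 : ∀ Y : List (Aut K), Y.length = b + B0 + b → ∀ F : List (Aut K), F.length = b →
      ind (¬ Hs K o b s Y F) ≤ ∑ i ∈ Finset.range s, ∑ k ∈ Finset.range b,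
        ind ((((Y.drop i).take (b + s - i)).prod * (F.take (k + 1)).prod).1 o = o) := by
    intro Y hY F hF
    by_cases hN : Hs K o b s Y F
    · rw [ind_false (by simpa using hN)]
      exact Finset.sum_nonneg fun i _ => Finset.sum_nonneg fun j _ => ind_nonneg _
    · rw [ind_true hN]
      unfold Hs at hN
      push Not at hN
      obtain ⟨y, hy, hy'⟩ := hN
      rw [P2_X_take] at hy'
      have hl : ((P2_X o Y).take (b + s + 1)).length = b + s + 1 := by
        rw [List.length_take, P2_X_length]; omega
      have h3 : ((P2_X o Y).take (b + s + 1)).rdrop (b + 1) = ((P2_X o Y).drop 0).take s := by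
        unfold List.rdrop
        rw [hl, List.take_take, List.drop_zero]
        congr 1; omega
      rw [h3] at hy'
      obtain ⟨i, hi1, hi2, hi3, rfl⟩ := P2_mem.mp hy'
      -- the vertex of F
      obtain ⟨k, hk, ek⟩ := List.mem_iff_getElem.mp hy
      have hkb : k < b := by rw [vp_length, hF] at hk; exact hk
      have e1 : (vp o (Y.take (b + s)).prod F)[k] = ((Y.take (b + s)).prod * (F.take (k + 1)).prod).1 o := by
        have g1 := P2_X_get o (K := K) F (k + 1) (by rw [P2_X_length]; omega)
        have g2 : (P2_X o F)[k + 1]'(by rw [P2_X_length]; omega)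
            = (vp o 1 F)[k]'(by rw [vp_length]; omega) := by simp [P2_X]
        rw [g2] at g1
        have g3 := vp_mul K o (Y.take (b + s)).prod 1 F
        rw [mul_one] at g3
        have g4 : (vp o (Y.take (b + s)).prod F)[k]
            = (Y.take (b + s)).prod.1 ((vp o 1 F)[k]'(by rw [vp_length]; omega)) := by
          simp only [g3, List.getElem_map]
        rw [g4, g1]; rfl
      rw [e1, P2_X_get] at ek
      have h2 := P2_take_prod Y i (b + s - i)
      rw [show i + (b + s - i) = b + s by omega] at h2
      rw [← h2, mul_assoc] at ek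
      have e2 : (((Y.drop i).take (b + s - i)).prod * (F.take (k + 1)).prod).1 o = o :=
        (Y.take i).prod.1.injective ek
      calc (1 : ℝ) = ind ((((Y.drop i).take (b + s - i)).prod * (F.take (k + 1)).prod).1 o = o) := by
            rw [ind_true e2]
        _ ≤ ∑ k ∈ Finset.range b,
              ind ((((Y.drop i).take (b + s - i)).prod * (F.take (k + 1)).prod).1 o = o) :=
            Finset.single_le_sum (f := fun k =>
              ind ((((Y.drop i).take (b + s - i)).prod * (F.take (k + 1)).prod).1 o = o))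
              (fun k _ => ind_nonneg _) (Finset.mem_range.mpr hkb)
        _ ≤ _ := Finset.single_le_sum (f := fun i => ∑ k ∈ Finset.range b,
              ind ((((Y.drop i).take (b + s - i)).prod * (F.take (k + 1)).prod).1 o = o))
              (fun i _ => Finset.sum_nonneg fun k _ => ind_nonneg _)
              (Finset.mem_range.mpr (by omega))
  refine (EL_mono K o _ fun Y hY => EL_mono K o _ (h1 Y hY)).trans ?_
  have h2 : EL K o (b + B0 + b) (fun Y => EL K o b (fun F => ∑ i ∈ Finset.range s,
      ∑ k ∈ Finset.range b, ind ((((Y.drop i).take (b + s - i)).prod * (F.take (k + 1)).prod).1 o = o)))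
      = ∑ i ∈ Finset.range s, ∑ k ∈ Finset.range b, EL K o (b + B0 + b) (fun Y => EL K o b (fun F =>
        ind ((((Y.drop i).take (b + s - i)).prod * (F.take (k + 1)).prod).1 o = o))) := by
    simp only [EL_sum]
  rw [h2]
  have h3 : ∀ i ∈ Finset.range s, ∀ k ∈ Finset.range b,
      EL K o (b + B0 + b) (fun Y => EL K o b (fun F =>
        ind ((((Y.drop i).take (b + s - i)).prod * (F.take (k + 1)).prod).1 o = o)))
      ≤ 3 / (2 * (Fintype.card V : ℝ)) := by
    intro i hi k hk
    rw [Finset.mem_range] at hi hk
    have e1 : EL K o (b + B0 + b) (fun Y => EL K o b (fun F =>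
        ind ((((Y.drop i).take (b + s - i)).prod * (F.take (k + 1)).prod).1 o = o)))
        = K.pt (b + s - i + (k + 1)) o o := by
      have g1 : ∀ R : List (Aut K), EL K o b (fun F => ind ((R.prod * (F.take (k + 1)).prod).1 o = o))
          = EL K o (k + 1) (fun G => ind ((R.prod * G.prod).1 o = o)) := by
        intro R
        have := P3_slice K o b 0 (k + 1) (by omega) (fun G => ind ((R.prod * G.prod).1 o = o))
        simpa using this
      simp only [g1]
      rw [P3_slice K o _ i (b + s - i) (by omega)
        (fun R => EL K o (k + 1) (fun G => ind ((R.prod * G.prod).1 o = o)))]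
      have g2 : ∀ R G : List (Aut K), R.prod * G.prod = (R ++ G).prod := fun R G =>
        List.prod_append.symm
      simp only [g2]
      rw [← EL_split K o (b + s - i) (k + 1) (fun L => ind (L.prod.1 o = o)), P3_ret]
    rw [e1]
    exact hP.mix _ (by omega) o o
  refine (Finset.sum_le_sum fun i hi => Finset.sum_le_sum (h3 i hi)).trans ?_
  simp only [Finset.sum_const, Finset.card_range, nsmul_eq_mul]
  rw [← mul_assoc]
  have hc : (0 : ℝ) ≤ 3 / (2 * (Fintype.card V : ℝ)) := by positivity
  refine mul_le_mul_of_nonneg_right ?_ hc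
  have : (b : ℝ) = 2 * h := by rw [hb]; push_cast; ring
  rw [this]
  have h4 : (s : ℝ) ≤ B0 := by exact_mod_cast hs
  gcongr

/-- P3, independence of the pieces -/
theorem EL_pair (K : HW V) (o : V) (b g B0 s s' : ℕ) (hs : s ≤ s') (hs' : s' ≤ B0) :
    EL K o (b + B0 + b) (fun Y => EL K o b (fun F =>
      ind (Ev K o b g ((Y.drop s).take b) ((Y.drop (b + s)).take (s' - s)) F)))
    = EL K o b (fun B => EL K o (s' - s) (fun R => EL K o b (fun F => ind (Ev K o b g B R F)))) := by
  have h1 := P3_slice2 K o (b + B0 + b) s b (s' - s) (by omega)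
    (fun B R => EL K o b (fun F => ind (Ev K o b g B R F)))
  rw [Nat.add_comm s b] at h1
  exact h1

end

end Pool.Agent.helper20.HP
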